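import Pool.Agent.R751.MB.AllD

/-!
# KLS for composite bodies and their marginals

Q1, in the form of the inequality for sets of measure one half, and for all marginals, for the bodies of
the following class, with a constant which
depends only on `s` and on the number `h` of steps of the construction, and not on the dimensions. The
class contains: the convex bodies
which satisfy the Poincare inequality with constant `s` in isotropic position; polytopes in `ℝ^m` with
at most `m + s` facets; the bodies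

`{x | ∑_{i ∉ J} N_i(x_i)^(p_i) ≤ 1, N_j(x_j) ≤ 1 for j ∈ J}`

with arbitrarily many blocks `x_i` of arbitrary dimensions, arbitrary exponents `p_i ≥ 1`, where each
`N_i` is a 1-symmetric norm, or a norm on real matrices `X` which is a function of `XᵀX`, or a norm on
symmetric or Hermitian matrices which is invariant under conjugation (for `s = h = 0` this gives an
absolute constant; theorems `block_sums`, `mixed_norms`); bodies of configurations of particles in `ℝ^d`,
invariant under the permutations of the particles within `q` species, `d, q ≤ s` (in particular all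
permutation invariant bodies). It is closed (with `h` increased by one) under affine maps with kernels of
dimension at most `s`, under products, under unconditional sums
`{x | (‖x_1‖_{K_1}, …, ‖x_b‖_{K_b}) ∈ D}` of `b ≤ s` symmetric bodies of arbitrary dimensions, `D ⊂ ℝ^b`
any unconditional convex body, and it contains the convex bodies in `ℝ^N × ℝ^j`, `j ≤ s`, whose fibres
over `ℝ^j` are homothetic to one body of the class. So: the products and the unconditional sums of `b`
symmetric bodies with the Poincare inequality satisfy the inequality, whatever `D` and the dimensions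
are, with a constant which depends on `b` and the constants of the bodies. Examples: the sets of
`(x_1, …, x_b)` for which the norms `(N_1(x_1), …, N_b(x_b))` of vectors or matrices, for different
norms of the kinds above and in any dimensions, form a point of an unconditional convex body in `ℝ^b`
(theorem `sums_of_norms`), bodies of revolution with a 1-symmetric or unitarily invariant profile
instead of the Euclidean ball, and iterations and projections of all these.

The class of `Towers` is closed under fibrations with arbitrary fibres over a base of bounded dimension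
and under adding dimensions; it has no products, no unconditional sums and no bodies with particles or sums of many blocks.

Method. (1) The property which is proved for all bodies of the class is the concentration of Lipschitz
functions on a constant scale, relative to the covariance, for the uniform measure and all its linear
images. For invariant bodies it follows from the theorems of the starting files by a linear change of
variables which commutes with the symmetries and makes the body isotropic. (2) It is stable under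
products (conditional variances). (3) The `D`-sum `{(‖x_i‖_{K_i})_i ∈ D}` is the image, under a linear map
with kernel of dimension `b`, of the convex body `{(x, t) | t ∈ D, t_i ≥ 0, x_i ∈ t_i K_i}`, whose fibres
over `ℝ^b` are the products `∏ t_i K_i`, diagonally related in the sense of the modules `R754.KG`, so
that the theorem proved there and the theorem of `ImagesOfSections` (modules `Y506.PV`) on
images apply. (4) The passage from the concentration of all linear images to the isoperimetric
inequality for sets of measure one half is that of `ImagesOfSections`.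
(5) Block sums: the density `exp (-∑ N_i(x_i)^(p_i))` is a product, and a point with this density is
`D_r Y`, `Y` uniform on the body, `D_r` the dilation `x_i ↦ r^(1/p_i) x_i` and `r` independent with a Gamma
distribution; because the blocks are even, `E |T D_t Y - T Y|² ≤ C s`, `t = r / E r`, for a linear map `T`
with `Cov (T Y) ≤ s`, with a constant which does not depend on the exponents.

The lemmas were formalised by helpers 736, 235, 408, 451, 80, 97, 193, 746, 27, 136, 971, 327, 126,
and 619 (modules `R751.MB`, `R80.MB`), the modules `R754.KG`, `R755.KF`, `R476.OR` by the helpers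
named there, and 751.
-/

set_option autoImplicit false

namespace Pool.Agent.Results.MP_6d896a_gt.CompositeBodies

open MeasureTheory Set
open scoped ENNReal InnerProductSpace Pointwise

/-- Euclidean space of dimension `n` -/
abbrev Euc (n : ℕ) : Type := EuclideanSpace ℝ (Fin n)

/-- real `m × l` matrices, with the Euclidean structure of `ℝ^(ml)` -/
abbrev Mat (m l : ℕ) : Type := EuclideanSpace ℝ (Fin m × Fin l)

/-- norms -/
structure IsNorm {κ : Type} [Fintype κ] (N : EuclideanSpace ℝ κ → ℝ) : Prop where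
  add_le : ∀ x y, N (x + y) ≤ N x + N y
  smul : ∀ (r : ℝ) (x : EuclideanSpace ℝ κ), N (r • x) = |r| * N x
  pos : ∀ x, x ≠ 0 → 0 < N x

/-- `N` does not change when coordinates are permuted or change their signs -/
def OneSymmetric {k : ℕ} (N : Euc k → ℝ) : Prop :=
  ∀ σ : Equiv.Perm (Fin k), ∀ x y : Euc k, (∀ i, |y i| = |x (σ i)|) → N y = N x

/-- `N (g X) = N X` for all orthogonal matrices `g` -/
def LeftInvariant {m l : ℕ} (N : Mat m l → ℝ) : Prop :=
  ∀ g ∈ Matrix.orthogonalGroup (Fin m) ℝ, ∀ X : Mat m l,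
    N (WithLp.toLp 2 fun p => ∑ k, g p.1 k * X (k, p.2)) = N X

/-- `Φ` is a linear isometric parametrisation of the Hermitian `D × D` matrices over `𝕜` (`ℝ` or `ℂ`),
with the Hilbert-Schmidt norm, by `ℝ^ι` -/
structure HermFrame {𝕜 : Type} [RCLike 𝕜] {D : ℕ} {ι : Type} [Fintype ι]
    (Φ : EuclideanSpace ℝ ι →ₗ[ℝ] Matrix (Fin D) (Fin D) 𝕜) : Prop where
  herm : ∀ x, (Φ x).conjTranspose = Φ x
  surj : ∀ A : Matrix (Fin D) (Fin D) 𝕜, A.conjTranspose = A → ∃ x, Φ x = A
  iso : ∀ x, ∑ i, ∑ j, ‖Φ x i j‖ ^ 2 = ‖x‖ ^ 2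

/-- `N` does not change when the matrix `Φ x` is conjugated by a unitary matrix -/
def ConjInvariant {𝕜 : Type} [RCLike 𝕜] {D : ℕ} {ι : Type} [Fintype ι]
    (Φ : EuclideanSpace ℝ ι →ₗ[ℝ] Matrix (Fin D) (Fin D) 𝕜) (N : EuclideanSpace ℝ ι → ℝ) : Prop :=
  ∀ U ∈ Matrix.unitaryGroup (Fin D) 𝕜, ∀ x y : EuclideanSpace ℝ ι,
    Φ y = U * Φ x * U.conjTranspose → N y = N x

/-- The norms on `ℝ^k` which are admitted: 1-symmetric norms, and, in any linear coordinates, left
invariant norms on `m × l` matrices, `1 ≤ l ≤ m`, `3 ≤ m`, and conjugation invariant norms on Hermitian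
matrices of order at least 3. -/
inductive Admissible : ∀ k : ℕ, (Euc k → ℝ) → Prop
  | oneSymmetric (k : ℕ) (N : Euc k → ℝ) : 1 ≤ k → IsNorm N → OneSymmetric N → Admissible k N
  | matrices (m l k : ℕ) (e : Mat m l ≃ₗ[ℝ] Euc k) (N : Mat m l → ℝ) : 3 ≤ m → 1 ≤ l → l ≤ m →
      IsNorm N → LeftInvariant N → Admissible k fun z => N (e.symm z)
  | hermitian (𝕜 : Type) [RCLike 𝕜] (D : ℕ) (ι : Type) [Fintype ι]
      (Φ : EuclideanSpace ℝ ι →ₗ[ℝ] Matrix (Fin D) (Fin D) 𝕜) (k : ℕ)
      (e : EuclideanSpace ℝ ι ≃ₗ[ℝ] Euc k) (N : EuclideanSpace ℝ ι → ℝ) : 3 ≤ D → HermFrame Φ →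
      IsNorm N → ConjInvariant Φ N → Admissible k fun z => N (e.symm z)

/-- `K = {x | ∑_{i ∉ J} N_i(x_i)^(p_i) ≤ 1, N_j(x_j) ≤ 1 for j ∈ J}`, where `x ↦ (x_i)_i` is a linear
bijection of `ℝⁿ` onto `∏_{i < M} ℝ^(k_i)`, `p_i ≥ 1` and the norms `N_i` on `ℝ^(k_i)` are admissible -/
def BlockBody {n : ℕ} (K : Set (Euc n)) : Prop :=
  ∃ (M : ℕ) (k : Fin M → ℕ) (L : Euc n ≃ₗ[ℝ] (∀ i, Euc (k i))) (p : Fin M → ℝ)
    (N : ∀ i, Euc (k i) → ℝ) (J : Finset (Fin M)), (∀ i, 1 ≤ p i) ∧
    (∀ i, Admissible (k i) (N i)) ∧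
    K = {x | ∑ i ∈ Finset.univ \ J, N i (L x i) ^ p i ≤ 1 ∧ ∀ i ∈ J, N i (L x i) ≤ 1}

/-- convex bodies: compact, convex, with nonempty interior -/
structure IsBody {κ : Type} [Fintype κ] (K : Set (EuclideanSpace ℝ κ)) : Prop where
  comp : IsCompact K
  conv : Convex ℝ K
  int : (interior K).Nonempty

/-- the uniform probability measure on `K` -/
noncomputable def unif {m : ℕ} (K : Set (Euc m)) : Measure (Euc m) :=
  (volume K)⁻¹ • volume.restrict K

/-- convex bodies which satisfy the Poincaré inequality `Var f ≤ c₀ E ‖∇ f‖²`, for all `C¹` functions,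
in isotropic position: after some linear bijection `A` which makes all variances of the coordinates
in directions of length one equal to one -/
structure PoincareBody (c₀ : ℝ) {N : ℕ} (C : Set (Euc N)) : Prop extends IsBody C where
  ineq : ∃ A : Euc N ≃ₗ[ℝ] Euc N,
    (∀ θ : Euc N, ProbabilityTheory.variance (fun x => ⟪A x, θ⟫_ℝ) (unif C) = ‖θ‖ ^ 2) ∧
    ∀ f : Euc N → ℝ, ContDiff ℝ 1 f → ProbabilityTheory.variance (fun x => f (A x)) (unif C) ≤
      c₀ * ∫ x, ‖fderiv ℝ f (A x)‖ ^ 2 ∂(unif C)

/-- polytopes (convex bodies) in `ℝ^m` which are intersections of at most `m + q` halfspaces or slabs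
`{x | ⟪v_i, x⟫ ∈ I_i}`, `I_i` closed intervals (which may be unbounded) -/
structure FewSlabs (q : ℕ) {m : ℕ} (K : Set (Euc m)) : Prop where
  bdd : Bornology.IsBounded K
  int : (interior K).Nonempty
  rep : ∃ (N : ℕ) (v : Fin N → Euc m) (I : Fin N → Set ℝ), N ≤ m + q ∧ (∀ i, IsClosed (I i)) ∧
    (∀ i, (I i).OrdConnected) ∧ K = {x | ∀ i, ⟪v i, x⟫_ℝ ∈ I i}

/-- configurations of `N` particles in `ℝ^d`: `x (i, α)` is the coordinate `α` of the particle `i` -/
abbrev Conf (N d : ℕ) : Type := EuclideanSpace ℝ (Fin N × Fin d)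

/-- `K` does not change when the particles are permuted within their species; `b i` is the species of
the particle `i` -/
def PermInvariant {N d q : ℕ} (b : Fin N → Fin q) (K : Set (Conf N d)) : Prop :=
  ∀ σ : Equiv.Perm (Fin N), (∀ i, b (σ i) = b i) → ∀ x y : Conf N d,
    (∀ i α, y (i, α) = x (σ i, α)) → x ∈ K → y ∈ K

/-- unconditional convex bodies `D ⊂ ℝ^b` -/
structure Unconditional {b : ℕ} (D : Set (Euc b)) : Prop extends IsBody D where
  unc : ∀ t ∈ D, ∀ s : Euc b, (∀ i, |s i| ≤ |t i|) → s ∈ D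

/-- The `D`-sum `{x | x_i ∈ t_i K_i for all i, for some t ∈ D}` of the sets `K_i`; for symmetric convex
bodies `K_i` and unconditional `D` it is `{x | (‖x_i‖_{K_i})_i ∈ D}`. -/
def dSum {b : ℕ} {m : Fin b → ℕ} (D : Set (Euc b)) (K : ∀ i, Set (Euc (m i))) :
    Set (∀ i, Euc (m i)) := {x | ∃ t ∈ D, ∀ i, x i ∈ t i • K i}

/-- the fibre over `t` of the set `K ⊂ ℝⁿ ≅ ℝ^N × ℝ^j` -/
def fibre {N j n : ℕ} (e : (Euc N × Euc j) ≃ₗ[ℝ] Euc n) (K : Set (Euc n)) (t : Euc j) :
    Set (Euc N) := {x | e (x, t) ∈ K}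

/-- The class of bodies. At depth 0 it contains the polytopes in `ℝ^m` given by at most `m + s`
halfspaces or slabs, the bodies with the Poincare inequality with constant `s`, the block bodies and the
bodies of configurations of particles in `ℝ^d` which are invariant under the permutations of the
particles within `q` species, `d, q ≤ s`. Bodies of depth `h + 1` are obtained from those of depth `h` by
images under affine maps with kernels of dimension at most `s`, products of two bodies, `D`-sums of at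
most `s` symmetric bodies, and as the convex bodies in `ℝ^N × ℝ^j`, `j ≤ s`, whose fibres over `ℝ^j` are,
except for those of volume zero, homothetic to one body `L` of depth `h`. -/
inductive Composite (s : ℕ) : ℕ → ∀ {n : ℕ}, Set (Euc n) → Prop
  | polytope {m : ℕ} {K : Set (Euc m)} : FewSlabs s K → Composite s 0 K
  | poincare {m : ℕ} {K : Set (Euc m)} : PoincareBody s K → Composite s 0 K
  | blocks {m : ℕ} {K : Set (Euc m)} : 1 ≤ m → BlockBody K → Composite s 0 K
  | particles {N d q n : ℕ} (b : Fin N → Fin q) (e : Conf N d ≃ₗ[ℝ] Euc n) {K : Set (Conf N d)} :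
      1 ≤ N → 1 ≤ d → d ≤ s → q ≤ s → Function.Surjective b → IsBody K → PermInvariant b K →
      Composite s 0 (e '' K)
  | up {h n : ℕ} {K : Set (Euc n)} : Composite s h K → Composite s (h + 1) K
  | image {h m n : ℕ} {K : Set (Euc m)} (T : Euc m →ᵃ[ℝ] Euc n) : m ≤ n + s →
      Function.Surjective T → Composite s h K → Composite s (h + 1) (T '' K)
  | product {h a b n : ℕ} (e : (Euc a × Euc b) ≃ₗ[ℝ] Euc n) {K : Set (Euc a)} {L : Set (Euc b)} :
      Composite s h K → Composite s h L → Composite s (h + 1) (e '' (K ×ˢ L))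
  | sum {h b n : ℕ} {m : Fin b → ℕ} (e : (∀ i, Euc (m i)) ≃ₗ[ℝ] Euc n) {D : Set (Euc b)}
      {K : ∀ i, Set (Euc (m i))} : b ≤ s → (∀ i, 1 ≤ m i) → Unconditional D →
      (∀ i, ∀ x ∈ K i, -x ∈ K i) → (∀ i, Composite s h (K i)) →
      Composite s (h + 1) (e '' dSum D K)
  | fibred {h N j n : ℕ} (e : (Euc N × Euc j) ≃ₗ[ℝ] Euc n) {K : Set (Euc n)} {L : Set (Euc N)} :
      j ≤ s → Composite s h L → IsBody K →
      (∀ t, volume (fibre e K t) = 0 ∨ ∃ (v : Euc N) (ρ : ℝ), 0 < ρ ∧
        fibre e K t = (fun x => v + ρ • x) '' L) → Composite s (h + 1) K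

/-- the boundary measure `μ⁺(S)`, the lower limit of `(μ(S_ε) - μ(S)) / ε` for the open
neighbourhoods `S_ε` of `S` -/
noncomputable def bdry {n : ℕ} (μ : Measure (Euc n)) (S : Set (Euc n)) : ℝ≥0∞ :=
  Filter.liminf (fun ε : ℝ => (μ (Metric.thickening ε S) - μ S) / ENNReal.ofReal ε)
    (nhdsWithin 0 (Set.Ioi 0))

/-- `μ⁺(S) √s ≥ c min(μ S, μ Sᶜ)` for all measurable sets `S` of measure one half and for every bound
`s` of the variances of the marginals of `μ` in directions of length one -/
def KLSHalf {n : ℕ} (c : ℝ) (μ : Measure (Euc n)) : Prop :=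
  ∀ s : ℝ, 0 < s →
    (∀ θ : Euc n, ‖θ‖ = 1 → ProbabilityTheory.variance (fun x => ⟪x, θ⟫_ℝ) μ ≤ s) →
    ∀ S : Set (Euc n), MeasurableSet S → μ S = 1 / 2 →
      ENNReal.ofReal (c / Real.sqrt s) * min (μ S) (μ Sᶜ) ≤ bdry μ S

theorem nrm_of {κ : Type} [Fintype κ] {N : EuclideanSpace ℝ κ → ℝ} (h : IsNorm N) :
    Pool.Agent.R751.MB.Nrm N := ⟨h.add_le, h.smul, h.pos⟩

theorem an_of {k : ℕ} {N : Euc k → ℝ} (h : Admissible k N) : Pool.Agent.R751.MB.AN k N := by
  cases h with
  | oneSymmetric _ _ hk hN hinv => exact .sym _ _ hk (nrm_of hN) hinv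
  | matrices m l _ e N hm hl hlm hN hinv => exact .mat m l k e N hm hl hlm (nrm_of hN) hinv
  | hermitian 𝕜 D ι Φ _ e N hD hΦ hN hinv =>
    exact .her 𝕜 D ι Φ k e N hD ⟨hΦ.herm, hΦ.surj, hΦ.iso⟩ (nrm_of hN) hinv

theorem bn_of {n : ℕ} {K : Set (Euc n)} (h : BlockBody K) : Pool.Agent.R751.MB.BN K := by
  obtain ⟨M, k, L, p, N, J, hp, hN, hK⟩ := h
  exact ⟨M, k, L, p, N, J, hp, fun i => an_of (hN i), hK⟩

theorem var_eq {n : ℕ} {K : Set (Euc n)} (hK : IsCompact K) (hi : (interior K).Nonempty)
    {f : Euc n → ℝ} (hf : Continuous f) : ProbabilityTheory.variance f (unif K) =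
      (∫ x, f x ^ 2 ∂(unif K)) - (∫ x, f x ∂(unif K)) ^ 2 := by
  have h0 : volume K ≠ 0 := Pool.Agent.R755.KF.vol_ne hi
  have hp : IsProbabilityMeasure (unif K) :=
    Pool.Agent.R754.KG.un_prob h0 hK.measure_lt_top.ne
  have h2 : Integrable (fun x => f x ^ 2) (unif K) :=
    Pool.Agent.R754.KG.un_int h0 hK.isBounded (hf.pow 2)
  rw [ProbabilityTheory.variance_eq_sub
    ((memLp_two_iff_integrable_sq hf.aestronglyMeasurable).2 h2)]
  rfl

theorem pi_of {c₀ : ℝ} {N : ℕ} {C : Set (Euc N)} (h : PoincareBody c₀ C) :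
    Pool.Agent.R755.KF.PI c₀ C := by
  obtain ⟨A, h1, h2⟩ := h.ineq
  have hAc : Continuous A := A.toLinearMap.continuous_of_finiteDimensional
  refine ⟨h.comp, h.conv, h.int, A, fun θ => ?_, fun f hf => ?_⟩
  · have h3 := h1 θ
    rw [var_eq h.comp h.int (by fun_prop)] at h3
    exact h3
  · have h3 := h2 f hf
    rw [var_eq h.comp h.int (f := fun x => f (A x)) (hf.continuous.comp hAc)] at h3
    exact h3

theorem body_of {κ : Type} [Fintype κ] {K : Set (EuclideanSpace ℝ κ)} (h : IsBody K) :
    Pool.Agent.R751.MB.Body K := ⟨h.comp, h.conv, h.int⟩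

theorem cp_of {s h n : ℕ} {K : Set (Euc n)} (H : Composite s h K) :
    Pool.Agent.R751.MB.Cq s 1 (s + 1) h n K := by
  induction H with
  | polytope hK =>
    obtain ⟨N, v, I, hN, hI1, hI2, hK'⟩ := hK.rep
    exact .base _ _ ⟨hK.bdd, hK.int, Or.inl ⟨N, hN, v, I, hI1, hI2, hK'⟩⟩
  | poincare hK => exact .poi _ _ (Pool.Agent.R751.MB.pi_mono (by linarith) (pi_of hK))
  | blocks hm hK => exact .blk _ _ hm (bn_of hK)
  | particles b e hN hd hds hqs hb hK hinv =>
    exact .par _ _ _ _ b e _ hN hd hds hqs hb (body_of hK) hinv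
  | up _ ih => exact .up _ _ _ ih
  | image T hm hT _ ih =>
    have hTL : ∀ x, T x = T 0 + T.linear x := fun x => by
      have h := T.map_vadd 0 x
      rw [vadd_eq_add, add_zero] at h
      rw [h, vadd_eq_add, add_comm]
    have hA : Function.Surjective T.linear := by
      rwa [AffineMap.linear_surjective_iff]
    have h2 := Pool.Agent.R751.MB.Cq.image _ _ _ _ T.linear (T 0) hm hA ih
    rw [image_congr fun x _ => hTL x]
    exact h2
  | product e _ _ ih1 ih2 => exact .prod _ _ _ _ e _ _ ih1 ih2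
  | sum e hb hm hD hs _ ih =>
    exact .dsum _ _ _ _ e _ _ hb hm ⟨body_of hD.toIsBody, hD.unc⟩ hs ih
  | fibred e hj _ hK hfib ih => exact .fibred _ _ _ _ _ e _ hj ih (body_of hK) hfib

theorem composite_ball (s : ℕ) {k : ℕ} {N : Euc k → ℝ} (hN : Admissible k N) :
    Composite s 0 {x | N x ≤ 1} := by
  refine .blocks (Pool.Agent.R751.MB.AN.basic (an_of hN)).2 ⟨1, fun _ => k,
    (LinearEquiv.funUnique (Fin 1) ℝ (Euc k)).symm, fun _ => 1, fun _ => N, ∅, fun _ => le_rfl,
    fun _ => hN, ?_⟩
  ext x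
  simp [LinearEquiv.funUnique_symm_apply]

/-- the unit balls of unconditional sums of admissible norms -/
theorem composite_norms {b n : ℕ} {m : Fin b → ℕ} (L : Euc n ≃ₗ[ℝ] (∀ i, Euc (m i)))
    {N : ∀ i, Euc (m i) → ℝ} (hN : ∀ i, Admissible (m i) (N i)) {D : Set (Euc b)}
    (hD : Unconditional D) : Composite b 1 {x | WithLp.toLp 2 (fun i => N i (L x i)) ∈ D} := by
  have hn : ∀ i, IsNorm (N i) ∧ 1 ≤ m i := fun i => by
    have h := Pool.Agent.R751.MB.AN.basic (an_of (hN i))
    exact ⟨⟨h.1.add_le, h.1.smul, h.1.pos⟩, h.2⟩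
  have h0 : ∀ i (x : Euc (m i)), 0 ≤ N i x := by
    intro i x
    by_cases hx : x = 0
    · have := (hn i).1.smul 0 0
      rw [hx]
      simp at this
      rw [this]
    · exact ((hn i).1.pos x hx).le
  have hs : ∀ i, ∀ x ∈ {x : Euc (m i) | N i x ≤ 1}, -x ∈ {x : Euc (m i) | N i x ≤ 1} := by
    intro i x hx
    have h1 := (hn i).1.smul (-1) x
    rw [neg_one_smul, abs_neg, abs_one, one_mul] at h1
    change N i (-x) ≤ 1
    rw [h1]
    exact hx
  have key := Composite.sum (s := b) (h := 0) L.symm (D := D) (K := fun i => {x | N i x ≤ 1})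
    le_rfl (fun i => (hn i).2) hD hs fun i => composite_ball b (hN i)
  convert key using 1
  ext x
  constructor
  · intro hx
    refine ⟨L x, ⟨_, hx, fun i => ?_⟩, L.symm_apply_apply x⟩
    by_cases h1 : N i (L x i) = 0
    · have h2 : L x i = 0 := by
        by_contra h3
        exact ((hn i).1.pos _ h3).ne' h1
      refine ⟨0, ?_, ?_⟩
      · change N i 0 ≤ 1
        have := (hn i).1.smul 0 0
        simp at this
        rw [this]
        exact zero_le_one
      · rw [h2]
        simp
    · have h2 : 0 < N i (L x i) := lt_of_le_of_ne (h0 i _) (Ne.symm h1)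
      refine ⟨(N i (L x i))⁻¹ • L x i, ?_, ?_⟩
      · change N i _ ≤ 1
        rw [(hn i).1.smul, abs_inv, abs_of_pos h2, inv_mul_cancel₀ h1]
      · simp [smul_smul, h1]
  · rintro ⟨y, ⟨t, ht, hy⟩, rfl⟩
    refine hD.unc t ht _ fun i => ?_
    obtain ⟨z, hz, e⟩ := hy i
    have hz' : N i z ≤ 1 := hz
    simp only [LinearEquiv.apply_symm_apply]
    rw [abs_of_nonneg (h0 i _), ← e]
    simp only
    rw [(hn i).1.smul]
    exact mul_le_of_le_one_right (abs_nonneg _) hz'

theorem blockBody_lq (M k n : ℕ) (hk : 1 ≤ k) (p q : ℝ) (hp : 1 ≤ p) (hq : 1 ≤ q)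
    (L : Euc n ≃ₗ[ℝ] (Fin M → Euc k)) :
    BlockBody {x | ∑ i, (∑ j, |L x i j| ^ q) ^ (p / q) ≤ 1} := by
  refine ⟨M, fun _ => k, L, fun _ => p, fun _ x => (∑ j, |x j| ^ q) ^ (1 / q), ∅, fun _ => hp,
    fun _ => ?_, ?_⟩
  · have h := Pool.Agent.R751.MB.nrm_lq (k := k) hq
    refine .oneSymmetric k _ hk ⟨h.add_le, h.smul, h.pos⟩ fun σ x y hxy => ?_
    simp only
    congr 1
    rw [← Equiv.sum_comp σ fun j => |x j| ^ q]
    exact Finset.sum_congr rfl fun j _ => by rw [hxy j]
  · ext x
    have h1 : ∀ i, (∑ j, |L x i j| ^ q) ^ (p / q) = ((∑ j, |L x i j| ^ q) ^ (1 / q)) ^ p := by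
      intro i
      rw [← Real.rpow_mul (Finset.sum_nonneg fun j _ => Real.rpow_nonneg (abs_nonneg _) _)]
      congr 1
      ring
    simp only [mem_ofPred_eq, h1, Finset.notMem_empty, false_implies, implies_true, and_true,
      Finset.sdiff_empty]

/-- from the functional inequality to all linear images -/
theorem images_of {m : ℕ} {K : Set (Euc m)} (hK : IsCompact K) (hi : (interior K).Nonempty)
    {c : ℝ} (hc : 0 < c) (hs : Pool.Agent.Y506.RG.Star c (Pool.Agent.Y506.PV.ind K)) (n : ℕ)
    (L : Euc m →ₗ[ℝ] Euc n) : IsProbabilityMeasure (Measure.map L (unif K)) ∧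
      KLSHalf (1 / (4 * c)) (Measure.map L (unif K)) := by
  have hA := Pool.Agent.Y506.PV.adm_ind K hK.measurableSet hK.isBounded
    (Pool.Agent.Y506.PV.vol_pos hi)
  have h := Pool.Agent.Y506.RG.half_of_star Pool.Agent.Y429.RG.minkm hA c hc hs n L
    (Measure.map L (Pool.Agent.Y506.RG.pm (Pool.Agent.Y506.PV.ind K))) rfl
  rw [Pool.Agent.Y506.PV.pm_ind K hK.measurableSet] at h
  obtain ⟨hp, H⟩ := h
  have hp' : IsProbabilityMeasure (Measure.map L (unif K)) := hp
  refine ⟨hp', fun s hs hvar S hS hS2 => ?_⟩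
  refine le_trans ?_ (H s hs hvar S hS2)
  calc _ ≤ ENNReal.ofReal (1 / (4 * c) / Real.sqrt s) * 1 :=
        mul_le_mul_right ((min_le_left _ _).trans prob_le_one) _
    _ = _ := mul_one _

/-- **KLS for composite bodies and their marginals.** For all `s, h` there is a constant `c > 0` such
that for all `m ≥ 1`, all bodies `K ⊂ ℝ^m` of the class `Composite s h` and all linear maps
`L : ℝ^m → ℝⁿ`, the law `μ` of `L x`, `x` uniform on `K`, is a probability measure with
`μ⁺(S) √‖A‖ ≥ c min(μ S, μ Sᶜ)` for all measurable `S` with `μ S = 1/2`, where `A` is the covariance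
matrix of `μ`. -/
theorem result : ∀ s h : ℕ, ∃ c : ℝ, 0 < c ∧
    ∀ (m : ℕ) (K : Set (Euc m)), 1 ≤ m → Composite s h K →
    ∀ (n : ℕ) (L : Euc m →ₗ[ℝ] Euc n) (μ : Measure (Euc n)),
      μ = Measure.map L (unif K) → IsProbabilityMeasure μ ∧ KLSHalf c μ := by
  intro s h
  obtain ⟨c, hc, H⟩ := Pool.Agent.R751.MB.star_cq s h (s + 1) (by positivity)
  refine ⟨1 / (4 * c), by positivity, fun m K hm hK n L μ hμ => ?_⟩
  obtain ⟨h1, h2, h3, h4⟩ := H m K hm (cp_of hK)
  rw [hμ]
  exact images_of h1 h3 hc h4 n L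

/-- **Unconditional sums of invariant norms.** For every `b` there is a constant `c > 0` such that for
all `n ≥ 1`, all linear bijections `x ↦ (x_1, …, x_b)` of `ℝⁿ` onto products of spaces of any dimensions,
all admissible norms `N_i` and all unconditional convex bodies `D ⊂ ℝ^b` the uniform measure on
`{x | (N_1(x_1), …, N_b(x_b)) ∈ D}` satisfies the inequality. -/
theorem sums_of_norms : ∀ b : ℕ, ∃ c : ℝ, 0 < c ∧ ∀ (n : ℕ) (m : Fin b → ℕ)
    (L : Euc n ≃ₗ[ℝ] (∀ i, Euc (m i))) (N : ∀ i, Euc (m i) → ℝ) (D : Set (Euc b)), 1 ≤ n →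
    (∀ i, Admissible (m i) (N i)) → Unconditional D →
    KLSHalf c (unif {x | WithLp.toLp 2 (fun i => N i (L x i)) ∈ D}) := by
  intro b
  obtain ⟨c, hc, H⟩ := result b 1
  refine ⟨c, hc, fun n m L N D hn hN hD => ?_⟩
  have h := (H n _ hn (composite_norms L hN hD) n LinearMap.id _ rfl).2
  simpa using h

/-- **Block bodies.** There is an absolute constant `c > 0` such that the uniform measures on all block
bodies and all their linear images satisfy the inequality. -/
theorem block_sums : ∃ c : ℝ, 0 < c ∧ ∀ (m : ℕ) (K : Set (Euc m)), 1 ≤ m → BlockBody K →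
    ∀ (n : ℕ) (L : Euc m →ₗ[ℝ] Euc n) (μ : Measure (Euc n)),
      μ = Measure.map L (unif K) → IsProbabilityMeasure μ ∧ KLSHalf c μ := by
  obtain ⟨c, hc, H⟩ := result 0 0
  exact ⟨c, hc, fun m K hm hK => H m K hm (.blocks hm hK)⟩

/-- **Mixed norms.** There is an absolute constant `c > 0` such that for all real `p, q ≥ 1`, all
`M, k ≥ 1` and all linear bijections `x ↦ (x_ij)` of `ℝⁿ` onto the `M × k` matrices the uniform measure
on `{x | ∑_i (∑_j |x_ij|^q)^(p/q) ≤ 1}` (the unit ball of `ℓ_p^M(ℓ_q^k)` in any linear coordinates)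
satisfies the inequality. -/
theorem mixed_norms : ∃ c : ℝ, 0 < c ∧ ∀ (M k n : ℕ) (p q : ℝ), 1 ≤ n → 1 ≤ k → 1 ≤ p → 1 ≤ q →
    ∀ L : Euc n ≃ₗ[ℝ] (Fin M → Euc k),
    KLSHalf c (unif {x | ∑ i, (∑ j, |L x i j| ^ q) ^ (p / q) ≤ 1}) := by
  obtain ⟨c, hc, H⟩ := block_sums
  refine ⟨c, hc, fun M k n p q hn hk hp hq L => ?_⟩
  have h := (H n _ hn (blockBody_lq M k n hk p q hp hq L) n LinearMap.id _ rfl).2
  simpa using h

end Pool.Agent.Results.MP_6d896a_gt.CompositeBodies
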