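import Pool.Agent.R972.OP.All3

/-!
# The KLS conjecture for log-concave samples conditioned on a partial order

Q1 for the following log-concave measures, in the position in which they are given. Let `h` be a
log-concave probability density on the line and let `R` be a partial order on `n` points. Let `μ` be
the law of `(X_1, ..., X_n)`, where the `X_i` are independent with density `h`, conditioned on
`X_i ≤ X_j` for all `i, j` with `R i j`. Then `μ⁺(S) √‖A‖ ≥ c min(μ S, μ Sᶜ)` for all measurable `S`
with an absolute constant `c > 0`. Examples: order polytopes (`h` uniform), order statistics of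
log-concave samples (`R` a chain), Gaussian and exponential variables conditioned on a partial
order.

Method. (1) Place the `n` labels on the positions `0, ..., N - 1`, injectively and increasingly with
respect to `R`, and exchange the contents of the positions `k` and `k + 1` with rate `c_k` when this
is allowed. Let `W_k` be increasing with `c_k (W_{k+1} - W_k) - c_{k-1} (W_k - W_{k-1}) = m - W_k`
(an eigenfunction of the one-particle chain). Take an eigenfunction `F` of the chain with eigenvalue
`λ` and a pair of placements which differ by the exchange of the contents of `i < j` for which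
`|F(σ) - F(τ)| / (W_j - W_i)` is maximal. A case analysis (path coupling in the style of Bubley and
Dyer: an exchange which is blocked in one of the two placements only is paid by the maximality)
gives `λ ≥ 1`. With `W_k = √(k (N - k)) - √((k + 1)(N - 1 - k))` one obtains in the
limit `N → ∞` the weighted Poincare inequality `Var f ≤ 4 E ∑ x_i² (1 - x_i)² (∂_i f)²` on order
polytopes. (2) It gives `Var f ≤ C Var(h) E ‖∇f‖²` for all
`h` by the change of variables `x_i = F(y_i)`, `F` the distribution function of `h`, because
`F (1 - F) ≤ C √Var(h) h`. (3) Integrals of symmetric functions over order cones are, up to a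
constant, integrals over the whole space, so the sum of the coordinates has variance `n Var(h)` under
`μ`. (4) From Poincare's to Cheeger's inequality for log-concave measures by the argument of Buser and
Ledoux (modules `W695.KH` of the starting files, extended to all levels and to densities).

Parts by helpers 780, 560, 574, 358, 928, 364, 372, 394, 152, 441, 609, 515, 874, 711, 656, 310, 422,
650, 294, 455, 281, 46, 787, 62, 757, 766 and 972 (modules `R972.OP`).
-/

set_option autoImplicit false

namespace Pool.Agent.Results.MP_6d896a_gt.OrderedSamples

open MeasureTheory Set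
open scoped ENNReal InnerProductSpace

/-- Euclidean space of dimension `n` -/
abbrev Euc (n : ℕ) : Type := EuclideanSpace ℝ (Fin n)

/-- log-concave densities on the line, not necessarily normalised -/
structure LogConcave (h : ℝ → ℝ) : Prop where
  nonneg : ∀ s, 0 ≤ h s
  meas : Measurable h
  lc : ∀ x y t : ℝ, 0 < t → t < 1 → h x ^ (1 - t) * h y ^ t ≤ h ((1 - t) * x + t * y)
  int : Integrable fun s => (1 + s ^ 2) * h s
  pos : 0 < ∫ s, h s

/-- the order cone `{x ∈ ℝⁿ | x_i ≤ x_j if R i j}` -/
def orderCone {n : ℕ} (R : Fin n → Fin n → Prop) : Set (Euc n) := {x | ∀ i j, R i j → x i ≤ x j}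

/-- the density `∏ h(x_i)` on the order cone, zero elsewhere -/
noncomputable def dens {n : ℕ} (R : Fin n → Fin n → Prop) (h : ℝ → ℝ) (x : Euc n) : ℝ :=
  (orderCone R).indicator (fun y => ∏ i, h (y i)) x

/-- the law of a sample of `n` independent variables with density proportional to `h`, conditioned to
lie in the order cone: the measure with density proportional to `dens R h` -/
noncomputable def sample {n : ℕ} (R : Fin n → Fin n → Prop) (h : ℝ → ℝ) : Measure (Euc n) :=
  (∫⁻ x, ENNReal.ofReal (dens R h x))⁻¹ • volume.withDensity fun x => ENNReal.ofReal (dens R h x)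

/-- the boundary measure `μ⁺(S)`, the lower limit of `(μ(S_ε) - μ(S)) / ε` for the open
neighbourhoods `S_ε` of `S` -/
noncomputable def bdry {n : ℕ} (μ : Measure (Euc n)) (S : Set (Euc n)) : ℝ≥0∞ :=
  Filter.liminf (fun ε : ℝ => (μ (Metric.thickening ε S) - μ S) / ENNReal.ofReal ε)
    (nhdsWithin 0 (Set.Ioi 0))

/-- `μ⁺(S) √s ≥ c min(μ S, μ Sᶜ)` for all measurable sets `S` and every bound `s` of the variances of
the marginals of `μ` in directions of length one -/
def KLS {n : ℕ} (c : ℝ) (μ : Measure (Euc n)) : Prop :=
  ∀ s : ℝ, 0 < s →
    (∀ θ : Euc n, ‖θ‖ = 1 → ProbabilityTheory.variance (fun x => ⟪x, θ⟫_ℝ) μ ≤ s) →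
    ∀ S : Set (Euc n), MeasurableSet S →
      ENNReal.ofReal (c / Real.sqrt s) * min (μ S) (μ Sᶜ) ≤ bdry μ S

/-- **KLS for log-concave samples conditioned on a partial order.** There is an absolute constant
`c > 0` such that for all `n ≥ 1`, all partial orders `R` on `n` points (reflexive or strict: only
antisymmetry and transitivity are assumed) and all log-concave densities `h` on the line, the law
`sample R h` is a probability measure which satisfies the inequality of Kannan, Lovasz and Simonovits
with constant `c`. -/
theorem result : ∃ c : ℝ, 0 < c ∧ ∀ (n : ℕ) (R : Fin n → Fin n → Prop), 1 ≤ n →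
    (∀ a b, R a b → R b a → a = b) → (∀ a b c, R a b → R b c → R a c) →
    ∀ h : ℝ → ℝ, LogConcave h → IsProbabilityMeasure (sample R h) ∧ KLS c (sample R h) := by
  obtain ⟨c, hc, H⟩ := Pool.Agent.R972.OP.kls3_all
  refine ⟨c, hc, fun n R hn hanti htr h hh => ?_⟩
  have hlc : Pool.Agent.Y506.RG.LC1 h := ⟨hh.nonneg, hh.meas, hh.lc⟩
  have hA := (Pool.Agent.R972.OP.vsg_all n R hanti htr h hh.nonneg hh.meas hh.int hh.pos).1
  have hp : IsProbabilityMeasure (sample R h) := Pool.Agent.Y506.RG.pm_prob hA
  refine ⟨hp, fun s hs hv S hS => ?_⟩
  rw [prob_compl_eq_one_sub hS]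
  exact H n R hn hanti htr h hlc hh.int hh.pos s hs hv S hS

end Pool.Agent.Results.MP_6d896a_gt.OrderedSamples
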