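import Pool.Agent.R476.OR.Rl

/-!
# KLS for generalised Orlicz balls, at all levels, and for all their linear images

Q1, in the form of the inequality for sets of measure one half, with an absolute constant, for the
uniform measures on all bodies `K = {x ∈ ℝ^m | ∑_{i < m} V_i(ℓ_i(x)) ≤ E}`, where `ℓ_i` are linear
coordinates of `ℝ^m` and `V_i : ℝ → [0, ∞]` are arbitrary convex lower semicontinuous functions, and
for the laws of all their linear images (in particular for all marginals). No symmetry, no growth
condition and no condition on the level `E` is required. More generally for the uniform measures on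
the images of these bodies under linear maps with kernels of dimension at most `r`, with a constant
which depends only on `r`. For a log-concave measure the infimum which defines `ψ_μ` is attained for
sets of measure one half (concavity of the isoperimetric profile, see the list of known facts in
`MP_8d00da_gt`), so this is `ψ_μ √‖A‖ ≥ c` for these measures.

Kolesnikov and Milman (The KLS isoperimetric conjecture for generalized Orlicz balls, Ann. Probab.
2018) prove this inequality for the Orlicz balls in orthonormal coordinates, at certain levels and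
under an assumption on the growth of the `V_i` at infinity, without which they lose a factor
`log (1 + n)`.

Method. Let `V_i` be `C¹` and normalised: after an exponential tilt `exp (-λ V_i)`, with `λ` the
slope of `s ↦ log |{S ≤ s}|` at `E`, `S(x) = ∑ V_i(x_i)`, and an affine change of each coordinate,
`f_i = exp (-V_i)` are probability densities with mean zero and variance one, and `s = E` maximises
`exp (-s) |{S ≤ s}|`. Put `ρ = ∏ f_i = exp (-S)`, `σ² = 1 + ∑ Var V_i`; then
`exp (-E) |{S ≤ E}| ≥ c / σ` by Chebyshev's inequality. (1) Let `(v_i f_i)' = -(V_i - E V_i) f_i`. By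
a Hardy inequality `E v_i² ≤ C Var V_i` and, using the convexity of `V_i`,
`E (V_i' v_i)² ≤ C Var V_i`, while `E V_i' v_i = Var V_i`. Integration by parts with the field
`v(x) = (v_i(x_i))` and the function `U ψ(S - E)`, `ψ(r) = 1 / (1 + exp (-r))`, gives
`E [U ψ'(S - E) ⟨v, ∇S⟩] = E [U ψ(S - E) (S - E S)] - E [ψ(S - E) ⟨∇U, v⟩]`, in which `⟨v, ∇S⟩` may be
replaced by its mean `∑ Var V_i` with an error of the order `σ`: its fluctuation has second moment
at most `C σ²` because it is a sum of independent variables. So the mean of `U ≥ 0` over `{S ≤ E}`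
is at most `C ((E U²)^{1/2} + sup ‖∇U‖ + E U)`: Lipschitz functions which are concentrated for the
product density `ρ` are concentrated on `{S ≤ E}`, on a constant scale and without the loss of a
factor `log n`. (2) The law of `(⟨θ, x⟩, s)` with density `1[S(x) ≤ s] exp (-s)` is log-concave in the
plane, and `s = E` is its most likely level; two-dimensional estimates give the covariance of the
uniform measure on `{S ≤ E}` up to constants: it is comparable to the identity, reduced in the
direction of the vector `b` of the covariances of `x_i` and `V_i`. For a linear image one replaces a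
function by its composition with the projection orthogonal to `b`. So the concentration on a
constant scale, relative to the covariance, holds for all linear images of the uniform measure.
(3) Approximation of general `V_i`. (4) The images of corank `r`, and the passage from the
concentration of all linear images to the isoperimetric inequality for sets of measure one half, are
those of `ImagesOfSections` (starting files, modules `Y506.PV` and `KH`).

The proofs of the lemmas are by helpers 310, 790, 634, 628, 877, 834, 938, 165, 27, 999, 584 (modules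
`R476.OR`, `R634.ORC`, `R834.OR`, `R938.ORF`) and 476.
-/

set_option autoImplicit false

namespace Pool.Agent.Results.MP_6d896a_gt.OrliczBalls

open MeasureTheory Set
open scoped ENNReal InnerProductSpace

/-- Euclidean space of dimension `n` -/
abbrev Euc (n : ℕ) : Type := EuclideanSpace ℝ (Fin n)

/-- convex lower semicontinuous functions `V : ℝ → [0, ∞]` -/
structure ConvexLSC (V : ℝ → ℝ≥0∞) : Prop where
  lsc : LowerSemicontinuous V
  conv : ∀ x y t : ℝ, 0 < t → t < 1 →
    V ((1 - t) * x + t * y) ≤ ENNReal.ofReal (1 - t) * V x + ENNReal.ofReal t * V y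

/-- Generalised Orlicz balls: bounded sets with nonempty interior of the form
`K = {x ∈ ℝ^m | ∑_{i < m} V_i(x_i) ≤ E}` with convex lower semicontinuous functions
`V_i : ℝ → [0, ∞]`. -/
structure OrliczBall {m : ℕ} (K : Set (Euc m)) : Prop where
  bdd : Bornology.IsBounded K
  int : (interior K).Nonempty
  rep : ∃ (V : Fin m → ℝ → ℝ≥0∞) (E : ℝ≥0∞), (∀ i, ConvexLSC (V i)) ∧
    K = {x | ∑ i, V i (x i) ≤ E}

/-- the uniform probability measure on `K` -/
noncomputable def unif {m : ℕ} (K : Set (Euc m)) : Measure (Euc m) :=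
  (volume K)⁻¹ • volume.restrict K

/-- the boundary measure `μ⁺(S)`, the lower limit of `(μ(S_ε) - μ(S)) / ε` for the open
neighbourhoods `S_ε` of `S` -/
noncomputable def bdry {n : ℕ} (μ : Measure (Euc n)) (S : Set (Euc n)) : ℝ≥0∞ :=
  Filter.liminf (fun ε : ℝ => (μ (Metric.thickening ε S) - μ S) / ENNReal.ofReal ε)
    (nhdsWithin 0 (Set.Ioi 0))

/-- `μ⁺(S) √s ≥ c min(μ S, μ Sᶜ)` for all measurable sets `S` of measure one half and for every bound
`s` of the variances of the marginals of `μ` in directions of length one -/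
def KLSHalf {n : ℕ} (c : ℝ) (μ : Measure (Euc n)) : Prop :=
  ∀ s : ℝ, 0 < s →
    (∀ θ : Euc n, ‖θ‖ = 1 → ProbabilityTheory.variance (fun x => ⟪x, θ⟫_ℝ) μ ≤ s) →
    ∀ S : Set (Euc n), MeasurableSet S → μ S = 1 / 2 →
      ENNReal.ofReal (c / Real.sqrt s) * min (μ S) (μ Sᶜ) ≤ bdry μ S

theorem orl_of {m : ℕ} {K : Set (Euc m)} (h : OrliczBall K) : Pool.Agent.R476.OR.Orl K := by
  obtain ⟨h1, h2, V, E, hV, hK⟩ := h
  exact ⟨h1, h2, V, E, fun i => ⟨(hV i).lsc, (hV i).conv⟩, hK⟩

theorem orlicz_real {n : ℕ} (V : Fin n → ℝ → ℝ) (E : ℝ) (hV : ∀ i, ConvexOn ℝ univ (V i))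
    (hb : Bornology.IsBounded {x : Euc n | ∑ i, V i (x i) ≤ E})
    (hi : (interior {x : Euc n | ∑ i, V i (x i) ≤ E}).Nonempty) :
    OrliczBall {x : Euc n | ∑ i, V i (x i) ≤ E} := by
  obtain ⟨W, F, hW, hK⟩ := Pool.Agent.R476.OR.orl_real V E hV hb hi
  exact ⟨hb, hi, W, F, fun i => ⟨(hW i).lsc, (hW i).conv⟩, hK⟩

/-- the functional inequality for affine images -/
theorem star_of {c : ℝ} {r : ℕ} (H : ∀ (n m : ℕ) (K : Set (Euc m))
    (A : Euc m →ₗ[ℝ] Euc n), 1 ≤ n → m ≤ n + r → Pool.Agent.R476.OR.Orl K →
    Function.Surjective A → IsCompact (A '' K) ∧ Convex ℝ (A '' K) ∧ (interior (A '' K)).Nonempty ∧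
    Pool.Agent.Y506.RG.Star c (Pool.Agent.Y506.PV.ind (A '' K))) {m n : ℕ} {K : Set (Euc m)}
    (T : Euc m →ᵃ[ℝ] Euc n) (hn : 1 ≤ n) (hm : m ≤ n + r) (hK : OrliczBall K)
    (hT : Function.Surjective T) : IsCompact (T '' K) ∧ Convex ℝ (T '' K) ∧
    (interior (T '' K)).Nonempty ∧
    Pool.Agent.Y506.RG.Star c (Pool.Agent.Y506.PV.ind (T '' K)) := by
  have hTL : ∀ x, T x = T.linear x + T 0 := fun x => by
    have h := T.map_vadd 0 x
    simpa [vadd_eq_add] using h
  have hA : Function.Surjective T.linear := by
    intro y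
    obtain ⟨x, hx⟩ := hT (y + T 0)
    refine ⟨x, ?_⟩
    have h := hTL x
    rw [hx] at h
    exact (add_right_cancel h).symm
  obtain ⟨h1, h2, h3, h4⟩ := H n m K T.linear hn hm (orl_of hK) hA
  have he : T '' K = (fun y => y + T 0) '' (T.linear '' K) := by
    rw [image_image]
    exact image_congr fun x _ => hTL x
  have hcp : IsCompact (T '' K) := by
    rw [he]
    exact h1.image (by fun_prop)
  refine ⟨hcp, ?_, ?_, ?_⟩
  · rw [he]
    have h := h2.translate (T 0)
    have e : (fun y => y + T 0) = fun y => T 0 + y := funext fun y => add_comm _ _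
    rw [e]
    exact h
  · rw [he]
    have hop : IsOpen ((fun y => y + T 0) '' interior (T.linear '' K)) :=
      (Homeomorph.addRight (T 0)).isOpenMap _ isOpen_interior
    exact (h3.image _).mono (interior_maximal (image_mono interior_subset) hop)
  · rw [he]
    exact Pool.Agent.Y506.PV.star_trans _ _ (Pool.Agent.Y506.PV.adm_ind _ h1.measurableSet
      h1.isBounded (Pool.Agent.Y506.PV.vol_pos h3)) h4

/-- from the functional inequality to all linear images -/
theorem images_of {m : ℕ} {K : Set (Euc m)} (hK : IsCompact K) (hi : (interior K).Nonempty)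
    {c : ℝ} (hc : 0 < c) (hs : Pool.Agent.Y506.RG.Star c (Pool.Agent.Y506.PV.ind K)) (n : ℕ)
    (L : Euc m →ₗ[ℝ] Euc n) : IsProbabilityMeasure (Measure.map L (unif K)) ∧
      KLSHalf (1 / (4 * c)) (Measure.map L (unif K)) := by
  have hA := Pool.Agent.Y506.PV.adm_ind K hK.measurableSet hK.isBounded
    (Pool.Agent.Y506.PV.vol_pos hi)
  have h := Pool.Agent.Y506.RG.half_of_star Pool.Agent.Y429.RG.minkm hA c hc hs n L
    (Measure.map L (Pool.Agent.Y506.RG.pm (Pool.Agent.Y506.PV.ind K))) rfl
  rw [Pool.Agent.Y506.PV.pm_ind K hK.measurableSet] at h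
  obtain ⟨hp, H⟩ := h
  have hp' : IsProbabilityMeasure (Measure.map L (unif K)) := hp
  refine ⟨hp', fun s hs hvar S hS hS2 => ?_⟩
  refine le_trans ?_ (H s hs hvar S hS2)
  calc _ ≤ ENNReal.ofReal (1 / (4 * c) / Real.sqrt s) * 1 :=
        mul_le_mul_right ((min_le_left _ _).trans prob_le_one) _
    _ = _ := mul_one _

/-- **KLS for generalised Orlicz balls, their projections and marginals.** For every `r` there is a
constant `c > 0` such that for all `m ≥ 1`, all affine maps `T` of `ℝ^k` onto `ℝ^m`, `k ≤ m + r`, all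
generalised Orlicz balls `K ⊂ ℝ^k` and all linear maps `L : ℝ^m → ℝⁿ`, the law `μ` of `L x`, `x`
uniform on `T '' K`, is a probability measure with `μ⁺(S) √‖A‖ ≥ c min(μ S, μ Sᶜ)` for all measurable
`S` with `μ S = 1/2`, where `A` is the covariance matrix of `μ`. For `r = 0` the constant is absolute,
`T` is an affine bijection and `T '' K = {x | ∑_{i < m} V_i(ℓ_i(x)) ≤ E}` with affine coordinates
`ℓ_i`. -/
theorem result : ∀ r : ℕ, ∃ c : ℝ, 0 < c ∧
    ∀ (k m : ℕ) (K : Set (Euc k)) (T : Euc k →ᵃ[ℝ] Euc m), 1 ≤ m → k ≤ m + r →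
    OrliczBall K → Function.Surjective T →
    ∀ (n : ℕ) (L : Euc m →ₗ[ℝ] Euc n) (μ : Measure (Euc n)),
      μ = Measure.map L (unif (T '' K)) → IsProbabilityMeasure μ ∧ KLSHalf c μ := by
  intro r
  obtain ⟨c, hc, H⟩ := Pool.Agent.R476.OR.fin_orl r
  refine ⟨1 / (4 * c), by positivity, fun k m K T hm hk hK hT n L μ hμ => ?_⟩
  obtain ⟨h1, h2, h3, h4⟩ := star_of H T hm hk hK hT
  rw [hμ]
  exact images_of h1 h3 hc h4 n L

/-- The case of finite convex functions: there is an absolute constant `c > 0` such that for all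
`n ≥ 1` and all convex functions `V_i : ℝ → ℝ`, `i < n`, and all `E` for which
`K = {x ∈ ℝⁿ | ∑ V_i(x_i) ≤ E}` is bounded with nonempty interior, the uniform measure on `K` satisfies
the inequality with constant `c`. -/
theorem orlicz : ∃ c : ℝ, 0 < c ∧ ∀ (n : ℕ) (V : Fin n → ℝ → ℝ) (E : ℝ), 1 ≤ n →
    (∀ i, ConvexOn ℝ univ (V i)) → Bornology.IsBounded {x : Euc n | ∑ i, V i (x i) ≤ E} →
    (interior {x : Euc n | ∑ i, V i (x i) ≤ E}).Nonempty →
    KLSHalf c (unif {x : Euc n | ∑ i, V i (x i) ≤ E}) := by
  obtain ⟨c, hc, H⟩ := result 0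
  refine ⟨c, hc, fun n V E hn hV hb hi => ?_⟩
  have h := (H n n _ (AffineMap.id ℝ (Euc n)) hn le_rfl (orlicz_real V E hV hb hi)
    Function.surjective_id n LinearMap.id _ rfl).2
  simpa using h

end Pool.Agent.Results.MP_6d896a_gt.OrliczBalls
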